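import Pool.Agent.R278.Sing.Main

/-!
# Strong Gurarii spaces and strong limit cardinals of countable cofinality
-/

open Cardinal Ordinal

namespace Pool.Agent.Results.MP_270a30_an.NoDensityStrongLimit

open Pool.Agent.R278.Sing

/-- Strong Gurarii spaces: isometric embeddings of subspaces of finite-dimensional spaces
extend. -/
def StrongGurarii (X : Type) [NormedAddCommGroup X] [NormedSpace ℝ X] : Prop :=
  ∀ (T : Type) [NormedAddCommGroup T] [NormedSpace ℝ T] [FiniteDimensional ℝ T]
    (S : Submodule ℝ T) (f : S →ₗᵢ[ℝ] X), ∃ g : T →ₗᵢ[ℝ] X, ∀ s : S, g (s : T) = f s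

/-- The density of a space: the least cardinality of a dense subset. -/
noncomputable def density (X : Type) [TopologicalSpace X] : Cardinal.{0} :=
  sInf {c | ∃ S : Set X, Dense S ∧ #S = c}

/-- No strong Gurarii space has density an uncountable strong limit cardinal of countable
cofinality; in particular, if `ℵ_ω` is a strong limit cardinal (for instance under GCH), then no
strong Gurarii space has density `ℵ_ω`. -/
theorem result :
    (∀ κ : Cardinal.{0}, κ.IsStrongLimit → ℵ₀ < κ → κ.ord.cof = ℵ₀ →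
      ∀ (X : Type) [NormedAddCommGroup X] [NormedSpace ℝ X] [CompleteSpace X],
        StrongGurarii X → density X ≠ κ) ∧
    ((∀ n : ℕ, (2 : Cardinal.{0}) ^ (ℵ_ n) < ℵ_ ω) →
      ∀ (X : Type) [NormedAddCommGroup X] [NormedSpace ℝ X] [CompleteSpace X],
        StrongGurarii X → density X ≠ ℵ_ ω) := by
  have key : ∀ κ : Cardinal.{0}, κ.IsStrongLimit → ℵ₀ < κ → κ.ord.cof = ℵ₀ →
      ∀ (X : Type) [NormedAddCommGroup X] [NormedSpace ℝ X] [CompleteSpace X],
        StrongGurarii X → density X ≠ κ := by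
    intro κ hκ h0 hcof X _ _ _ hX hd
    have hne : {c | ∃ S : Set X, Dense S ∧ #S = c}.Nonempty := ⟨_, Set.univ, dense_univ, rfl⟩
    have h1 : density X ∈ {c | ∃ S : Set X, Dense S ∧ #S = c} := csInf_mem hne
    rw [hd] at h1
    refine no_strong_limit hX hκ h0 hcof h1 fun S hS => ?_
    rw [← hd]
    exact csInf_le' ⟨S, hS, rfl⟩
  refine ⟨key, fun h => key _ ⟨(aleph_pos _).ne', ?_⟩ ?_ ?_⟩
  · intro x hx
    rcases lt_or_ge x ℵ₀ with h1 | h1
    · exact (power_lt_aleph0 (natCast_lt_aleph0 (n := 2)) h1).trans_le (aleph0_le_aleph _)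
    · obtain ⟨o, rfl⟩ := mem_range_aleph_iff.2 h1
      rw [aleph_lt_aleph] at hx
      obtain ⟨n, rfl⟩ := lt_omega0.1 hx
      exact h n
  · rw [← aleph_zero, aleph_lt_aleph]
    exact omega0_pos
  · rw [ord_aleph, cof_omega isSuccLimit_omega0, cof_omega0]

end Pool.Agent.Results.MP_270a30_an.NoDensityStrongLimit
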