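import Pool.Agent.R587.SgE

set_option autoImplicit false

open Set Filter Topology Cardinal Ordinal

universe u

namespace Pool.Agent.Results.MP_270a30_an.NoStrongLimitDensity

/-- A real normed space `V` is *strong Gurarii*: for all finite dimensional normed spaces
`X ⊆ Y`, every isometric embedding `f : X → V` extends to an isometric embedding `g : Y → V`. -/
def IsStrongGurarii (V : Type u) [NormedAddCommGroup V] [NormedSpace ℝ V] : Prop :=
  ∀ (Y : Type) [NormedAddCommGroup Y] [NormedSpace ℝ Y] [FiniteDimensional ℝ Y]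
    (X : Submodule ℝ Y) (f : X →ₗᵢ[ℝ] V), ∃ g : Y →ₗᵢ[ℝ] V, ∀ x : X, g (x : Y) = f x

/-- The density of a space: the least cardinality of a dense subset. -/
noncomputable def density (V : Type u) [TopologicalSpace V] : Cardinal.{u} :=
  sInf {c | ∃ E : Set V, Dense E ∧ #E = c}

theorem density_le (V : Type u) [TopologicalSpace V] (E : Set V) (hE : Dense E) :
    density V ≤ #E := csInf_le' ⟨E, hE, rfl⟩

theorem density_mem (V : Type u) [TopologicalSpace V] :
    ∃ E : Set V, Dense E ∧ #E = density V := by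
  have h : (sInf {c | ∃ E : Set V, Dense E ∧ #E = c}) ∈
      {c | ∃ E : Set V, Dense E ∧ #E = c} := csInf_mem ⟨_, Set.univ, dense_univ, rfl⟩
  exact h

theorem lt_aleph_omega (μ : Cardinal.{u}) (h : μ < ℵ_ ω) : ∃ n : ℕ, μ ≤ ℵ_ n := by
  rcases le_total μ ℵ₀ with h1 | h1
  · exact ⟨0, by simpa using h1⟩
  · obtain ⟨o, rfl⟩ := Cardinal.mem_range_aleph_iff.2 h1
    rw [Cardinal.aleph_lt_aleph, Ordinal.lt_omega0] at h
    obtain ⟨n, rfl⟩ := h
    exact ⟨n, le_rfl⟩

/-- **Main theorem.**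
1. (ZFC) If a strong Gurarii space `V` is the closure of a countable union of sets `D n`, then
the density of `V` is at most `2 ^ 2 ^ max ℵ₀ |D n|` for some `n`.
2. If `κ` is an uncountable strong limit cardinal of countable cofinality, no strong Gurarii
space has density `κ`.
3. If `2 ^ ℵ_n < ℵ_ω` for every natural number `n`, no strong Gurarii space has density `ℵ_ω`. -/
theorem result :
    (∀ (V : Type u) [NormedAddCommGroup V] [NormedSpace ℝ V] [CompleteSpace V],
      IsStrongGurarii V → ∀ D : ℕ → Set V, Dense (⋃ n, D n) →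
        ∃ n, density V ≤ (2 : Cardinal.{u}) ^ ((2 : Cardinal.{u}) ^ (max ℵ₀ #(D n)))) ∧
    (∀ (V : Type u) [NormedAddCommGroup V] [NormedSpace ℝ V] [CompleteSpace V],
      IsStrongGurarii V → ∀ κ : Cardinal.{u}, ℵ₀ < κ → κ.IsStrongLimit →
        (∃ f : ℕ → Cardinal.{u}, (∀ n, f n < κ) ∧ ∀ μ < κ, ∃ n, μ ≤ f n) → density V ≠ κ) ∧
    (∀ (V : Type u) [NormedAddCommGroup V] [NormedSpace ℝ V] [CompleteSpace V],
      IsStrongGurarii V → (∀ n : ℕ, (2 : Cardinal.{u}) ^ (ℵ_ n : Cardinal.{u}) < ℵ_ ω) →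
        density V ≠ ℵ_ ω) := by
  have key : ∀ (V : Type u) [NormedAddCommGroup V] [NormedSpace ℝ V] [CompleteSpace V],
      IsStrongGurarii V → ∀ κ : Cardinal.{u}, ℵ₀ < κ → (∀ μ < κ, (2 : Cardinal.{u}) ^ μ < κ) →
        (∃ f : ℕ → Cardinal.{u}, (∀ n, f n < κ) ∧ ∀ μ < κ, ∃ n, μ ≤ f n) → density V ≠ κ := by
    intro V _ _ _ hV κ hκ hlim hf hd
    obtain ⟨f, hf0, hf1⟩ := hf
    obtain ⟨E, hE, hEc⟩ := density_mem V
    exact Pool.Agent.R587.SG.no_strong_limit (V := V) hV κ hκ hlim f hf0 hf1 E hE (hEc.trans hd)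
      (fun E' hE' => hd ▸ density_le V E' hE')
  refine ⟨?_, ?_, ?_⟩
  · intro V _ _ _ hV D hD
    obtain ⟨n, E, hE, hc⟩ := Pool.Agent.R587.SG.main_dense (V := V) hV D hD
    exact ⟨n, (density_le V E hE).trans hc⟩
  · intro V _ _ _ hV κ hκ hlim hf
    exact key V hV κ hκ (fun μ hμ => hlim.isStrongPrelimit hμ) hf
  · intro V _ _ _ hV hlim
    refine key V hV (ℵ_ ω) ?_ ?_ ⟨fun n => ℵ_ n, ?_, lt_aleph_omega⟩
    · rw [← Cardinal.aleph_zero, Cardinal.aleph_lt_aleph]
      exact Ordinal.omega0_pos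
    · intro μ hμ
      obtain ⟨n, hn⟩ := lt_aleph_omega μ hμ
      exact (Cardinal.power_le_power_left two_ne_zero hn).trans_lt (hlim n)
    · intro n
      rw [Cardinal.aleph_lt_aleph]
      exact Ordinal.natCast_lt_omega0 n

end Pool.Agent.Results.MP_270a30_an.NoStrongLimitDensity
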